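import Pool.Agent.H83.X.T3
import Pool.Agent.H14.LF.LBL
import Pool.Agent.H5.X.KXX

/-!
Row XLB of the board x83_modules (`MP_c59857_nt`, Theorem X): the labels (after row VLB of
lvv_modules, `Pool/Agent/H77/V/VLB.lean`).
-/

set_option autoImplicit false

open MeasureTheory ProbabilityTheory Filter Topology Finset
open scoped Nat ENNReal

namespace Pool.Agent.H13.X

open Pool.Agent.H83.X
open Pool.Agent.H28.MCL (ldB Aw)
open Pool.Agent.H83.V (vl fz)

theorem fz_abs (z : Bool) (n : ℕ) : |((fz z n : ℤ) : ℝ)| ≤ 1 := by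
  unfold fz vl
  split_ifs <;> simp

theorem aH_abs (z : Bool) (h H n : ℕ) : |aH z h H n| ≤ 1 := by
  unfold aH
  rw [abs_div, Nat.abs_cast]
  refine div_le_one_of_le₀ ?_ (Nat.cast_nonneg H)
  refine (Finset.abs_sum_le_sum_abs _ _).trans ?_
  calc ∑ j ∈ range H, |((fz z (n + j + 1) * fz z (n + j + 1 + h) : ℤ) : ℝ)|
      ≤ ∑ j ∈ range H, (1 : ℝ) := Finset.sum_le_sum fun j _ => by
        rw [Int.cast_mul, abs_mul]
        exact mul_le_one₀ (fz_abs _ _) (abs_nonneg _) (fz_abs _ _)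
    _ = H := by simp

theorem vR_bd (R : ℕ) (b : ℕ → Bool) : 0 ≤ vR R b ∧ vR R b ≤ 1 := by
  unfold vR
  constructor
  · refine div_nonneg (Finset.sum_nonneg fun s _ => ?_) (Nat.cast_nonneg R)
    split_ifs <;> norm_num
  · refine div_le_one_of_le₀ ?_ (Nat.cast_nonneg R)
    calc ∑ s ∈ range R, (if b s then (1 : ℝ) else 0)
        ≤ ∑ s ∈ range R, (1 : ℝ) := Finset.sum_le_sum fun s _ => by split_ifs <;> norm_num
      _ = R := by simp

/-- a lower bound for `ldI` -/
theorem ldI_ge (U : Ultrafilter ℕ) (x y : ℕ → ℕ) (F : ℕ → ℝ) (M c : ℝ) (hAw : Aw U x y)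
    (hxy : ∀ j, x j ≤ y j) (hF : ∀ n, |F n| ≤ M)
    (hc : ∀ᶠ j in (U : Filter ℕ), c * Real.log ((y j : ℝ) / x j) ≤
      ∑ n ∈ Icc (x j) (y j), F n / n) : c ≤ ldI U x y F := by
  obtain ⟨hx, hL⟩ := hAw
  obtain ⟨g, hg⟩ : ∃ g : ℕ → ℝ, g = fun j =>
      (∑ n ∈ Icc (x j) (y j), F n / n) / Real.log ((y j : ℝ) / x j) := ⟨_, rfl⟩
  have hM : 0 ≤ M := (abs_nonneg _).trans (hF 0)
  have h1 : ∀ᶠ j in (U : Filter ℕ), g j ∈ Set.Icc (-(2 * M)) (2 * M) := by
    filter_upwards [hL.eventually_ge_atTop 1] with j hj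
    have hsum : |∑ n ∈ Icc (x j) (y j), F n / n| ≤
        M * (1 + Real.log ((y j : ℝ) / x j)) := by
      refine (Finset.abs_sum_le_sum_abs _ _).trans ?_
      calc ∑ n ∈ Icc (x j) (y j), |F n / n|
          ≤ ∑ n ∈ Icc (x j) (y j), M * ((1 : ℝ) / n) := Finset.sum_le_sum fun n _ => by
            rw [abs_div, Nat.abs_cast, ← mul_one_div]
            exact mul_le_mul_of_nonneg_right (hF n) (by positivity)
        _ = M * ∑ n ∈ Icc (x j) (y j), (1 : ℝ) / n := (Finset.mul_sum _ _ _).symm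
        _ ≤ _ := mul_le_mul_of_nonneg_left (Pool.Agent.H14.LF.sum_window (hx j) (hxy j)) hM
    rw [Set.mem_Icc, ← abs_le, hg]
    have hpos : 0 < Real.log ((y j : ℝ) / x j) := by linarith
    change |(∑ n ∈ Icc (x j) (y j), F n / n) / Real.log ((y j : ℝ) / x j)| ≤ 2 * M
    rw [abs_div, abs_of_pos hpos, div_le_iff₀ hpos]
    refine hsum.trans ?_
    nlinarith
  obtain ⟨a, _, ha⟩ := (isCompact_Icc (a := -(2 * M)) (b := 2 * M)).ultrafilter_le_nhds
    (U.map g) (le_principal_iff.2 h1)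
  have hT : Tendsto g (U : Filter ℕ) (𝓝 a) := by
    rwa [Ultrafilter.coe_map] at ha
  have e : ldI U x y F = a := by
    unfold ldI
    rw [← hg]
    exact hT.limUnder_eq
  rw [e]
  refine ge_of_tendsto hT ?_
  filter_upwards [hc, hL.eventually_ge_atTop 1] with j hj1 hj2
  rw [hg]
  exact (le_div_iff₀ (by linarith)).2 hj1

/-- the sum over the `n ≡ -1 (mod H)` of a window -/
theorem sum_res (H x y : ℕ) (hH : 2 ≤ H) (hx : 0 < x) (hxy : x ≤ y) :
    ∑ n ∈ (Icc x y).filter (fun n => H ∣ n + 1), (1 : ℝ) / n ≤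
      2 / H * (1 + Real.log ((y : ℝ) / x)) := by
  have hxr : (0 : ℝ) < x := by exact_mod_cast hx
  have hyr : (0 : ℝ) < y := by exact_mod_cast (by omega : 0 < y)
  have hlog : 0 ≤ Real.log ((y : ℝ) / x) := by
    refine Real.log_nonneg ?_
    rw [le_div_iff₀ hxr, one_mul]
    exact_mod_cast hxy
  rcases Finset.eq_empty_or_nonempty ((Icc x y).filter (fun n => H ∣ n + 1)) with he | ⟨n₀, hn₀⟩
  · rw [he, Finset.sum_empty]
    positivity
  obtain ⟨a, ha⟩ : ∃ a, a = (x + H) / H := ⟨_, rfl⟩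
  obtain ⟨b, hb⟩ : ∃ b, b = (y + 1) / H := ⟨_, rfl⟩
  have hH0 : 0 < H := by omega
  have ha1 : x + 1 ≤ H * a := by
    have h1 := Nat.lt_mul_div_succ (x + H - H) hH0
    have h2 : (x + H) / H = x / H + 1 := Nat.add_div_right x hH0
    rw [ha, h2]
    have h3 := Nat.lt_mul_div_succ x hH0
    omega
  have hb1 : H * b ≤ y + 1 := by
    rw [hb]
    exact Nat.mul_div_le _ _
  have hmem : ∀ n ∈ (Icc x y).filter (fun n => H ∣ n + 1), (n + 1) / H ∈ Icc a b := by
    intro n hn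
    rw [Finset.mem_filter, Finset.mem_Icc] at hn
    obtain ⟨⟨h1, h2⟩, k, hk⟩ := hn
    have h3 : (n + 1) / H = k := by
      rw [hk]
      exact Nat.mul_div_cancel_left k hH0
    rw [h3, Finset.mem_Icc, ha, hb]
    constructor
    · have h4 : (x + H) / H ≤ (n + H) / H := Nat.div_le_div_right (by omega)
      refine h4.trans (Nat.lt_succ_iff.1 ?_)
      rw [Nat.div_lt_iff_lt_mul hH0]
      have : (k + 1) * H = H * k + H := by ring
      rw [Nat.succ_eq_add_one, this]
      omega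
    · rw [Nat.le_div_iff_mul_le hH0, mul_comm, ← hk]
      omega
  have hab : a ≤ b := by
    have := Finset.mem_Icc.1 (hmem n₀ hn₀)
    omega
  have ha0 : 0 < a := by
    rcases Nat.eq_zero_or_pos a with h | h
    · rw [h] at ha1
      omega
    · exact h
  have har : (0 : ℝ) < a := by exact_mod_cast ha0
  have hbr : (0 : ℝ) < b := by exact_mod_cast (by omega : 0 < b)
  have hHr : (0 : ℝ) < H := by exact_mod_cast hH0
  have hle : Real.log ((b : ℝ) / a) ≤ Real.log ((y : ℝ) / x) := by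
    refine Real.log_le_log (by positivity) ?_
    rw [div_le_div_iff₀ har hxr]
    have h1 : H * (b * x) ≤ H * (y * a) := by nlinarith
    exact_mod_cast Nat.le_of_mul_le_mul_left h1 hH0
  have hinj : Set.InjOn (fun n => (n + 1) / H)
      ((Icc x y).filter (fun n => H ∣ n + 1) : Finset ℕ) := by
    intro n hn n' hn' he
    rw [Finset.mem_coe, Finset.mem_filter] at hn hn'
    have h1 := Nat.div_mul_cancel hn.2
    have h2 := Nat.div_mul_cancel hn'.2
    have h3 : (n + 1) / H = (n' + 1) / H := he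
    rw [h3] at h1
    omega
  calc ∑ n ∈ (Icc x y).filter (fun n => H ∣ n + 1), (1 : ℝ) / n
      ≤ ∑ n ∈ (Icc x y).filter (fun n => H ∣ n + 1), 2 / H * ((1 : ℝ) / ((n + 1) / H : ℕ)) := by
        refine Finset.sum_le_sum fun n hn => ?_
        have hk := hmem n hn
        rw [Finset.mem_filter, Finset.mem_Icc] at hn
        obtain ⟨⟨h1, h2⟩, k, hk'⟩ := hn
        have h3 : (n + 1) / H = k := by
          rw [hk']
          exact Nat.mul_div_cancel_left k hH0
        rw [h3] at hk ⊢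
        have hk0 : 0 < k := by
          have := (Finset.mem_Icc.1 hk).1
          omega
        have hkr : (0 : ℝ) < k := by exact_mod_cast hk0
        have hn0 : (1 : ℝ) ≤ n := by exact_mod_cast (by omega : 1 ≤ n)
        have hr : (n : ℝ) + 1 = H * k := by exact_mod_cast hk'
        rw [div_mul_div_comm, mul_one, div_le_div_iff₀ (by linarith) (by positivity), ← hr]
        linarith
    _ = 2 / H * ∑ k ∈ ((Icc x y).filter (fun n => H ∣ n + 1)).image (fun n => (n + 1) / H),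
          (1 : ℝ) / k := by
        rw [Finset.sum_image hinj, Finset.mul_sum]
    _ ≤ 2 / H * ∑ k ∈ Icc a b, (1 : ℝ) / k := by
        refine mul_le_mul_of_nonneg_left ?_ (by positivity)
        refine Finset.sum_le_sum_of_subset_of_nonneg ?_ fun k _ _ => by positivity
        intro k hk
        obtain ⟨n, hn, rfl⟩ := Finset.mem_image.1 hk
        exact hmem n hn
    _ ≤ 2 / H * (1 + Real.log ((y : ℝ) / x)) := by
        refine mul_le_mul_of_nonneg_left ?_ (by positivity)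
        exact (Pool.Agent.H14.LF.sum_window ha0 hab).trans (by linarith)

open Classical in
theorem pf_XLB (hW : T_XWN) (hB : T_XL1) (hL : Pool.Agent.H28.MCL.T_LDB) : T_XLB := by
  intro z h Φ δ hΦ hδ0 hδ1 hV
  obtain ⟨ε, ρ, x, y, hε, hρ, hxy, hlen, hbig⟩ := hW z h Φ δ hV
  obtain ⟨B, hB0, hBB⟩ := hB z h Φ δ hΦ hδ0 hδ1
  obtain ⟨Lc, hLc0, hLc⟩ := Pool.Agent.H5.X.lip Φ hΦ
  have hερ : 0 < ε * ρ := by positivity
  refine ⟨ε * ρ / 4, ⌈8 * B / (ε * ρ)⌉₊ + 1, by positivity, ?_⟩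
  intro R hR
  have hR0 : 0 < R := by omega
  have hRr : (0 : ℝ) < R := by exact_mod_cast hR0
  have hRB : B * (1 / R) ≤ ε * ρ / 8 := by
    rw [mul_one_div, div_le_iff₀ hRr]
    have h1 : 8 * B / (ε * ρ) ≤ R :=
      (Nat.le_ceil _).trans (by exact_mod_cast (by omega : ⌈8 * B / (ε * ρ)⌉₊ ≤ R))
    rw [div_le_iff₀ hερ] at h1
    linarith
  choose τ₀ hτ1 hτ2 hτ3 using fun j : ℕ => hBB ε R (j + 1) (x j) (y j)
    ((Icc (x j) (y j)).filter (fun N => cU Φ δ + ε < mH z h Φ (j + 1) N)) hε hR0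
    (Nat.succ_pos j) (hxy j).1 (hxy j).2.1 (Finset.filter_subset _ _)
    (fun N hN => (Finset.mem_filter.1 hN).2)
  have hmono : StrictMono x := strictMono_nat_of_lt_succ fun j =>
    (hxy j).2.1.trans_lt (hxy j).2.2
  have hdis : ∀ i j n : ℕ, x i ≤ n → n ≤ y i → x j ≤ n → n ≤ y j → i = j := by
    have key : ∀ i j n : ℕ, i < j → n ≤ y i → x j ≤ n → False := by
      intro i j n hij h1 h2
      have h3 := (hxy i).2.2
      have h4 := hmono.monotone (show i + 1 ≤ j from hij)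
      omega
    intro i j n h1 h2 h3 h4
    rcases lt_trichotomy i j with h | h | h
    · exact (key i j n h h2 h3).elim
    · exact h
    · exact (key j i n h h4 h1).elim
  obtain ⟨τ, hτ⟩ : ∃ τ : ℕ → ℕ → Bool, ∀ j n, x j ≤ n → n ≤ y j → τ n = τ₀ j n := by
    refine ⟨fun n => if h : ∃ j, x j ≤ n ∧ n ≤ y j then τ₀ h.choose n else fun _ => false, ?_⟩
    intro j n h1 h2
    have h : ∃ j, x j ≤ n ∧ n ≤ y j := ⟨j, h1, h2⟩
    simp only [dif_pos h]
    rw [hdis _ _ n h.choose_spec.1 h.choose_spec.2 h1 h2]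
  obtain ⟨L, hLdef⟩ : ∃ L : ℕ → ℝ, L = fun j => Real.log ((y j : ℝ) / x j) := ⟨_, rfl⟩
  have hLj : ∀ j, Real.log ((y j : ℝ) / x j) = L j := fun j => by rw [hLdef]
  simp only [hLj] at hτ2 hlen hbig
  have hL0 : ∀ j, 0 ≤ L j := fun j => le_trans (by positivity) (hlen j)
  have hUat : ((hyperfilter ℕ : Ultrafilter ℕ) : Filter ℕ) ≤ atTop := by
    rw [← Nat.cofinite_eq_atTop]
    exact hyperfilter_le_cofinite
  have hAw : Aw (hyperfilter ℕ) x y := by
    refine ⟨fun j => (hxy j).1, ?_⟩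
    refine Tendsto.mono_left ?_ hUat
    simp only [hLj]
    refine tendsto_atTop_mono (f := fun j : ℕ => (j : ℝ)) (fun j => ?_)
      tendsto_natCast_atTop_atTop
    refine le_trans ?_ (hlen j)
    have : (0 : ℝ) ≤ j := Nat.cast_nonneg j
    nlinarith
  obtain ⟨_, _, _, hup, hlo⟩ := hL (hyperfilter ℕ) x y hAw
  have hun : ∀ s t : Finset ℕ, ∑ n ∈ s ∪ t, (1 : ℝ) / n ≤
      ∑ n ∈ s, (1 : ℝ) / n + ∑ n ∈ t, (1 : ℝ) / n := by
    intro s t
    have e := Finset.sum_union_inter (s₁ := s) (s₂ := t) (f := fun n : ℕ => (1 : ℝ) / n)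
    have e2 : 0 ≤ ∑ n ∈ s ∩ t, (1 : ℝ) / n := Finset.sum_nonneg fun n _ => by positivity
    linarith
  -- a set with small sums has density zero
  have hzero : ∀ A : Set ℕ, (∀ c : ℝ, 0 < c → ∃ j₀ : ℕ, ∀ j, j₀ ≤ j →
      ∑ n ∈ (Icc (x j) (y j)).filter (fun n => n ∈ A), (1 : ℝ) / n ≤ c * L j) →
      ldB (hyperfilter ℕ) x y A = 0 := by
    intro A hA
    refine le_antisymm ?_ ?_
    · refine le_of_forall_pos_le_add fun c hc => ?_
      rw [zero_add]
      refine hup _ c (hUat ?_)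
      obtain ⟨j₀, hj₀⟩ := hA c hc
      refine eventually_atTop.2 ⟨j₀, fun j hj => ?_⟩
      rw [hLj]
      exact hj₀ j hj
    · refine hlo _ 0 (Eventually.of_forall fun j => ?_)
      rw [zero_mul]
      exact Finset.sum_nonneg fun n _ => by positivity
  refine ⟨hyperfilter ℕ, x, y, τ, hAw, ?_, ?_, ?_⟩
  · obtain ⟨A, hA⟩ : ∃ A : Set ℕ, A = {n | τ n ≠ τ (n + 1)} := ⟨_, rfl⟩
    rw [← hA]
    refine hzero _ fun c hc => ⟨⌈5 / c⌉₊ + 1, fun j hj => ?_⟩
    have hj1 : 5 / c ≤ j := by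
      refine (Nat.le_ceil _).trans ?_
      exact_mod_cast (by omega : ⌈5 / c⌉₊ ≤ j)
    have hj0 : (1 : ℝ) ≤ j := by exact_mod_cast (by omega : 1 ≤ j)
    have h1 : ∑ n ∈ (Icc (x j) (y j)).filter (fun n => n ∈ A),
        (1 : ℝ) / n ≤ 2 / ((j + 1 : ℕ) : ℝ) * (1 + L j) + 1 := by
      have h2 : (Icc (x j) (y j)).filter (fun n => n ∈ A) ⊆
          (Icc (x j) (y j)).filter (fun n => (j + 1) ∣ n + 1) ∪ {y j} := by
        intro n hn
        rw [Finset.mem_filter, Finset.mem_Icc, hA] at hn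
        obtain ⟨⟨hn1, hn2⟩, hn3⟩ := hn
        rw [Finset.mem_union, Finset.mem_filter, Finset.mem_Icc, Finset.mem_singleton]
        by_cases h : n = y j
        · exact Or.inr h
        · refine Or.inl ⟨⟨hn1, hn2⟩, ?_⟩
          by_contra hd
          refine hn3 ?_
          rw [hτ j n hn1 hn2, hτ j (n + 1) (by omega) (by omega)]
          exact (hτ1 j n hd).symm
      refine (Finset.sum_le_sum_of_subset_of_nonneg h2 fun n _ _ => by positivity).trans ?_
      refine (hun _ _).trans ?_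
      rw [Finset.sum_singleton]
      refine add_le_add ?_ ?_
      · have := sum_res (j + 1) (x j) (y j) (by
          have : 1 ≤ j := by exact_mod_cast hj0
          omega) (hxy j).1 (hxy j).2.1
        rw [hLj] at this
        exact this
      · have h3 : (1 : ℝ) ≤ y j := by
          have := (hxy j).1
          have := (hxy j).2.1
          exact_mod_cast (by omega : 1 ≤ y j)
        rw [div_le_one (by linarith)]
        exact h3
    refine h1.trans ?_
    have hjp : (0 : ℝ) < j := by linarith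
    have hlj := hlen j
    have hLj1 : 1 ≤ L j := by nlinarith
    have h5 : 1 ≤ L j / j := by
      rw [le_div_iff₀ hjp, one_mul]
      nlinarith
    have h4 : 2 / ((j + 1 : ℕ) : ℝ) * (1 + L j) ≤ 4 * (L j / j) := by
      have e1 : 2 / ((j + 1 : ℕ) : ℝ) ≤ 2 / j :=
        div_le_div_of_nonneg_left (by norm_num) hjp (by push_cast; linarith)
      have e2 : 2 / (j : ℝ) * (1 + L j) ≤ 2 / j * (2 * L j) :=
        mul_le_mul_of_nonneg_left (by linarith) (by positivity)
      have e3 : 2 / (j : ℝ) * (2 * L j) = 4 * (L j / j) := by ring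
      have e4 : 2 / ((j + 1 : ℕ) : ℝ) * (1 + L j) ≤ 2 / j * (1 + L j) :=
        mul_le_mul_of_nonneg_right e1 (by linarith)
      linarith
    have h6 : 5 * (L j / j) ≤ c * L j := by
      have h7 : 5 ≤ c * j := by
        rw [div_le_iff₀ hc] at hj1
        linarith
      have h8 : 5 * (L j / j) = (5 * L j) / j := by ring
      rw [h8, div_le_iff₀ hjp]
      nlinarith
    linarith
  · intro p p' hp hpp
    obtain ⟨A, hA⟩ : ∃ A : Set ℕ, A =
      {n | ¬ (p * vR R (τ (n / p)) ≤ p' * vR R (τ (n / p')) + 2 * p' / R)} := ⟨_, rfl⟩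
    rw [← hA]
    refine hzero _ fun c hc => ⟨⌈22 * R * p' / c⌉₊ + 1, fun j hj => ?_⟩
    have hj1 : 22 * R * p' / c ≤ j := by
      refine (Nat.le_ceil _).trans ?_
      exact_mod_cast (by omega : ⌈22 * R * p' / c⌉₊ ≤ j)
    have hj0 : (1 : ℝ) ≤ j := by exact_mod_cast (by omega : 1 ≤ j)
    have hp' : (1 : ℝ) ≤ p' := by exact_mod_cast (by omega : 1 ≤ p')
    have hR1 : (1 : ℝ) ≤ R := by exact_mod_cast hR0
    have h2 : (Icc (x j) (y j)).filter (fun n => n ∈ A) ⊆
        Icc (x j) (p' * x j) ∪ Icc 1 (10 * R * p' * (j + 1 + 1)) := by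
      intro n hn
      rw [Finset.mem_filter, Finset.mem_Icc, hA] at hn
      obtain ⟨⟨hn1, hn2⟩, hn3⟩ := hn
      rw [Finset.mem_union, Finset.mem_Icc, Finset.mem_Icc]
      by_contra hno
      rw [not_or, not_and, not_and] at hno
      have h3 := hno.1 hn1
      have h4 := hno.2 (by have := (hxy j).1; omega)
      refine hn3 ?_
      have hp'0 : 0 < p' := by omega
      have h5 : x j ≤ n / p' := by
        rw [Nat.le_div_iff_mul_le hp'0, mul_comm]
        omega
      have h6 : n / p' ≤ n / p := Nat.div_le_div_left hpp.le hp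
      have h7 : n / p ≤ n := Nat.div_le_self n p
      rw [hτ j (n / p) (by omega) (by omega), hτ j (n / p') h5 (by omega)]
      exact hτ3 j p p' n hp hpp hn2 (by omega) (by omega)
    refine (Finset.sum_le_sum_of_subset_of_nonneg h2 fun n _ _ => by positivity).trans ?_
    refine (hun _ _).trans ?_
    have hx0 := (hxy j).1
    have hxr : (0 : ℝ) < x j := by exact_mod_cast hx0
    have s1 : ∑ n ∈ Icc (x j) (p' * x j), (1 : ℝ) / n ≤ p' := by
      refine (Pool.Agent.H14.LF.sum_window hx0 (Nat.le_mul_of_pos_left _ (by omega))).trans ?_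
      have e : (((p' * x j : ℕ) : ℝ)) / x j = p' := by
        push_cast
        field_simp
      rw [e]
      have := Real.log_le_sub_one_of_pos (show (0 : ℝ) < p' by linarith)
      linarith
    have s2 : ∑ n ∈ Icc 1 (10 * R * p' * (j + 1 + 1)), (1 : ℝ) / n ≤
        10 * R * p' * (j + 1 + 1) := by
      have hpos : 0 < 10 * R * p' * (j + 1 + 1) := by
        have : 0 < p' := by omega
        positivity
      refine (Pool.Agent.H14.LF.sum_window one_pos hpos).trans ?_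
      have e : (((10 * R * p' * (j + 1 + 1) : ℕ) : ℝ)) / ((1 : ℕ) : ℝ) =
          10 * R * p' * (j + 1 + 1) := by
        push_cast
        ring
      rw [e]
      have := Real.log_le_sub_one_of_pos
        (show (0 : ℝ) < 10 * R * p' * (j + 1 + 1) by positivity)
      linarith
    refine (add_le_add s1 s2).trans ?_
    have hlj := hlen j
    have h7 : 22 * R * p' ≤ c * j := by
      rw [div_le_iff₀ hc] at hj1
      linarith
    obtain ⟨q, hq⟩ : ∃ q : ℝ, q = R * p' := ⟨_, rfl⟩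
    have hq1 : (p' : ℝ) ≤ q := by
      rw [hq]
      nlinarith
    have hq0 : 0 < q := by linarith
    have e5 : (10 : ℝ) * R * p' * (j + 1 + 1) = 10 * q * (j + 2) := by
      rw [hq]
      ring
    rw [e5]
    have h8 : 22 * q ≤ c * j := by
      rw [hq]
      linarith
    have h9 : (p' : ℝ) + 10 * q * (j + 2) ≤ 22 * q * (j + 1) := by nlinarith
    have h10 : 22 * q * ((j : ℝ) + 1) ≤ c * j * (j + 1) :=
      mul_le_mul_of_nonneg_right h8 (by linarith)
    have h11 : c * j * ((j : ℝ) + 1) ≤ c * L j := by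
      rw [mul_assoc]
      exact mul_le_mul_of_nonneg_left hlj hc.le
    linarith
  · intro K hK
    have hK' : (0 : ℝ) < K := by exact_mod_cast hK
    have hFb : ∀ n, |vR R (τ n) * (Φ (aH z h K n) - cU Φ δ)| ≤ Lc + |Φ 0| + |cU Φ δ| := by
      intro n
      rw [abs_mul, abs_of_nonneg (vR_bd R (τ n)).1]
      refine (mul_le_of_le_one_left (abs_nonneg _) (vR_bd R (τ n)).2).trans ?_
      have h1 := hLc (aH z h K n) 0 (aH_abs z h K n) (by simp)
      rw [sub_zero] at h1
      have h2 : Lc * |aH z h K n| ≤ Lc := mul_le_of_le_one_right hLc0.le (aH_abs z h K n)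
      have h3 : Φ (aH z h K n) - cU Φ δ = (Φ (aH z h K n) - Φ 0) + Φ 0 - cU Φ δ := by ring
      rw [h3]
      refine (abs_sub _ _).trans ?_
      have h4 := abs_add_le (Φ (aH z h K n) - Φ 0) (Φ 0)
      linarith
    refine ldI_ge _ x y _ _ _ hAw (fun j => (hxy j).2.1) hFb (hUat ?_)
    refine eventually_atTop.2 ⟨⌈(ε * ρ / 8 + B * (3 * K + 1)) / (ε * ρ / 8)⌉₊ + K + 1,
      fun j hj => ?_⟩
    rw [hLj]
    have hj1 : (ε * ρ / 8 + B * (3 * K + 1)) / (ε * ρ / 8) ≤ j := by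
      refine (Nat.le_ceil _).trans ?_
      exact_mod_cast (by omega : ⌈(ε * ρ / 8 + B * (3 * (K : ℝ) + 1)) / (ε * ρ / 8)⌉₊ ≤ j)
    have hj0 : (1 : ℝ) ≤ j := by exact_mod_cast (by omega : 1 ≤ j)
    have hlow := hτ2 j K hK (by omega)
    have hb := hbig j
    have hsame : ∑ n ∈ Icc (x j) (y j), vR R (τ n) * (Φ (aH z h K n) - cU Φ δ) / n =
        ∑ n ∈ Icc (x j) (y j), vR R (τ₀ j n) * (Φ (aH z h K n) - cU Φ δ) / n := by
      refine Finset.sum_congr rfl fun n hn => ?_
      rw [Finset.mem_Icc] at hn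
      rw [hτ j n hn.1 hn.2]
    rw [hsame]
    obtain ⟨T, hT⟩ : ∃ T, T =
      ∑ n ∈ Icc (x j) (y j), vR R (τ₀ j n) * (Φ (aH z h K n) - cU Φ δ) / n := ⟨_, rfl⟩
    obtain ⟨S, hS⟩ : ∃ S, S = ∑ N ∈ (Icc (x j) (y j)).filter
      (fun N => cU Φ δ + ε < mH z h Φ (j + 1) N), (1 : ℝ) / N := ⟨_, rfl⟩
    rw [← hT] at hlow ⊢
    rw [← hS] at hlow hb
    have hjp : (0 : ℝ) < j := by linarith
    have hlj := hlen j
    have hLj1 : 1 ≤ L j := by nlinarith
    obtain ⟨w, hw⟩ : ∃ w, w = L j / j := ⟨_, rfl⟩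
    have hw1 : 1 ≤ w := by
      rw [hw, le_div_iff₀ hjp, one_mul]
      nlinarith
    have hHw : ((j + 1 : ℕ) : ℝ) ≤ w := by
      rw [hw, le_div_iff₀ hjp]
      push_cast
      linarith
    have hKw : (K : ℝ) / ((j + 1 : ℕ) : ℝ) * (1 + L j) ≤ 2 * K * w := by
      have e1 : (K : ℝ) / ((j + 1 : ℕ) : ℝ) ≤ K / j :=
        div_le_div_of_nonneg_left hK'.le hjp (by push_cast; linarith)
      have e2 : (K : ℝ) / ((j + 1 : ℕ) : ℝ) * (1 + L j) ≤ K / j * (1 + L j) :=
        mul_le_mul_of_nonneg_right e1 (by linarith)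
      have e3 : (K : ℝ) / j * (1 + L j) ≤ K / j * (2 * L j) :=
        mul_le_mul_of_nonneg_left (by linarith) (by positivity)
      have e4 : (K : ℝ) / j * (2 * L j) = 2 * K * w := by
        rw [hw]
        ring
      linarith
    have hwL : (ε * ρ / 8 + B * (3 * K + 1)) * w ≤ ε * ρ / 8 * L j := by
      have h7 : ε * ρ / 8 + B * (3 * K + 1) ≤ ε * ρ / 8 * j := by
        rw [div_le_iff₀ (by positivity)] at hj1
        linarith
      have h8 : (ε * ρ / 8 + B * (3 * K + 1)) * w =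
          ((ε * ρ / 8 + B * (3 * K + 1)) * L j) / j := by rw [hw]; ring
      rw [h8, div_le_iff₀ hjp]
      nlinarith [hL0 j]
    have hKw2 : (K : ℝ) ≤ K * w := by nlinarith
    have e1 : B * ((1 / R + (K : ℝ) / ((j + 1 : ℕ) : ℝ)) * (1 + L j) + ((j + 1 : ℕ) : ℝ) + K) ≤
        ε * ρ / 8 * (1 + L j) + B * (3 * K + 1) * w := by
      have e2 : B * ((1 / R + (K : ℝ) / ((j + 1 : ℕ) : ℝ)) * (1 + L j) + ((j + 1 : ℕ) : ℝ) + K)
          = B * (1 / R) * (1 + L j) +
            B * ((K : ℝ) / ((j + 1 : ℕ) : ℝ) * (1 + L j) + ((j + 1 : ℕ) : ℝ) + K) := by ring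
      rw [e2]
      refine add_le_add (mul_le_mul_of_nonneg_right hRB (by linarith)) ?_
      rw [mul_assoc]
      refine mul_le_mul_of_nonneg_left ?_ hB0.le
      linarith
    have e3 : ε / 2 * (ρ * L j) ≤ ε / 2 * S := mul_le_mul_of_nonneg_left hb (by positivity)
    have e4 : ε * ρ / 8 ≤ ε * ρ / 8 * w := by nlinarith
    linarith

end Pool.Agent.H13.X
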